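import Pool.Agent.H25.Skew

set_option autoImplicit false

namespace Pool.Agent.Results.MP_aa1485_co.Forest

open Pool.Agent.H25.Skew

/-- On every finite forest the four skew forcing parameters coincide. -/
theorem result (V : Type) [Finite V] (T : SimpleGraph V) (hT : T.IsAcyclic) :
    zir T = Z T ∧ Z T = Zup T ∧ Zup T = ZIR T :=
  main hT

end Pool.Agent.Results.MP_aa1485_co.Forest
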